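import Pool.Agent.V1188.FPC
import Pool.Agent.V1188.FP9

namespace V1188.FP

open Finset Classical Filter PowerSeries

set_option linter.unusedSectionVars false

section tors

variable {X : Type} {F : Type} [Field F] (e : X ≃ F)

lemma cc_C (c : F) : cc (PowerSeries.C c) = c := by unfold cc; simp

lemma sh_C (c : F) : sh (PowerSeries.C c) = 0 := by
  have h := sh_unique (F := F) (a := PowerSeries.C c) (s := 0) (c := c) (by simp)
  exact h.2

/-- the affine maps `y ↦ a y + b` with `a` a non-zero constant and `b` a power series -/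
noncomputable def torFam : Fam X where
  G n := {
    carrier := {g | ∃ (a : F) (b : PowerSeries F), a ≠ 0 ∧ g = A e n (PowerSeries.C a) b}
    one_mem' := ⟨1, 0, one_ne_zero, by rw [map_one]; exact (A_one e n).symm⟩
    mul_mem' := by
      rintro g h ⟨a, b, ha, rfl⟩ ⟨c, d, hc, rfl⟩
      refine ⟨a * c, PowerSeries.C a * d + b, mul_ne_zero ha hc, ?_⟩
      rw [A_mul e n _ _ _ _ (by rw [cc_C]; exact ha) (by rw [cc_C]; exact hc), map_mul]
    inv_mem' := by
      rintro g ⟨a, b, ha, rfl⟩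
      refine ⟨a⁻¹, -(PowerSeries.C a⁻¹ * b), inv_ne_zero ha, ?_⟩
      apply inv_eq_of_mul_eq_one_right
      rw [A_mul e n _ _ _ _ (by rw [cc_C]; exact ha) (by rw [cc_C]; exact inv_ne_zero ha),
        ← map_mul, mul_inv_cancel₀ ha, map_one]
      have : PowerSeries.C a * -(PowerSeries.C a⁻¹ * b) + b = 0 := by
        have h1 : PowerSeries.C a * -(PowerSeries.C a⁻¹ * b) =
            -((PowerSeries.C a * PowerSeries.C a⁻¹) * b) := by ring
        rw [h1, ← map_mul, mul_inv_cancel₀ ha, map_one]; ring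
      rw [this, A_one] }
  compat n := by
    ext g
    rw [Subgroup.mem_map]
    constructor
    · rintro ⟨_, ⟨a, b, ha, rfl⟩, rfl⟩
      exact ⟨a, b, ha, A_tr e n _ b⟩
    · rintro ⟨a, b, ha, rfl⟩
      exact ⟨_, ⟨a, b, ha, rfl⟩, A_tr e n _ b⟩
  trans n v w := by
    obtain ⟨b, hb⟩ := A_trans e n v w
    exact ⟨_, ⟨1, b, one_ne_zero, by rw [map_one]⟩, hb⟩

lemma tor_fix : ∀ (n : ℕ) (a : F) (b : PowerSeries F), a ≠ 0 → a ≠ 1 →
    HasFix n (A e n (PowerSeries.C a) b)
  | 0, _, _, _, _ => trivial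
  | n + 1, a, b, ha, ha1 => by
    refine ⟨e.symm (cc b / (1 - a)), ?_, ?_⟩
    · show aff e (cc (PowerSeries.C a)) (cc b) (e.symm (cc b / (1 - a))) = _
      rw [cc_C, aff_apply e ha, Equiv.apply_symm_apply]
      congr 1
      have h1 : (1 - a) ≠ 0 := sub_ne_zero.2 ha1.symm
      field_simp
      ring
    · show HasFix n (A e n (PowerSeries.C a)
        (PowerSeries.C (e (e.symm (cc b / (1 - a)))) * sh (PowerSeries.C a) + sh b))
      rw [sh_C, mul_zero, zero_add]
      exact tor_fix n a _ ha ha1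

lemma sh_one : sh (1 : PowerSeries F) = 0 := by
  have := sh_C (1 : F)
  rwa [map_one] at this

lemma trans_fix : ∀ (n : ℕ) (b : PowerSeries F), HasFix n (A e n 1 b) → A e n 1 b = 1
  | 0, _, _ => rfl
  | n + 1, b, ⟨u, hu, hu'⟩ => by
    have h1 : aff e (cc 1) (cc b) u = u := hu
    rw [cc_one, aff_apply e one_ne_zero, Equiv.symm_apply_eq, one_mul] at h1
    have h2 : cc b = 0 := by simpa using h1
    have h3 : HasFix n (A e n 1 (PowerSeries.C (e u) * sh 1 + sh b)) := hu'
    rw [sh_one, mul_zero, zero_add] at h3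
    have h4 := trans_fix n _ h3
    apply Wr.ext
    · ext x
      show aff e (cc 1) (cc b) x = x
      rw [cc_one, h2, aff_apply e one_ne_zero]
      simp
    · funext x
      show A e n 1 (PowerSeries.C (e x) * sh 1 + sh b) = 1
      rw [sh_one, mul_zero, zero_add, h4]

/-- an element of the family acting trivially on the letters and fixing a word is trivial -/
lemma tor_triv (n : ℕ) (g : TA X (n + 1)) (hg : g ∈ (torFam e).G (n + 1))
    (h1 : Wr.s g = 1) (h2 : HasFix (n + 1) g) : g = 1 := by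
  obtain ⟨a, b, ha, rfl⟩ := hg
  have h3 : aff e (cc (PowerSeries.C a)) (cc b) = 1 := h1
  rw [cc_C] at h3
  have h4 := congrFun (congrArg DFunLike.coe h3) (e.symm 0)
  have h5 := congrFun (congrArg DFunLike.coe h3) (e.symm 1)
  rw [aff_apply e ha, Equiv.symm_apply_eq] at h4 h5
  simp only [Equiv.apply_symm_apply, Equiv.Perm.coe_one, id_eq, mul_zero, zero_add, mul_one] at h4 h5
  rw [h4, add_zero] at h5
  rw [h5, map_one] at h2 ⊢
  exact trans_fix e _ _ h2

/-- an element acting non-trivially on the letters and fixing a letter fixes a word -/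
lemma tor_some (n : ℕ) (g : TA X (n + 1)) (hg : g ∈ (torFam e).G (n + 1))
    (h1 : Wr.s g ≠ 1) (h2 : ∃ u, Wr.s g u = u) : HasFix (n + 1) g := by
  obtain ⟨a, b, ha, rfl⟩ := hg
  apply tor_fix e _ _ _ ha
  rintro rfl
  obtain ⟨u, hu⟩ := h2
  have h3 : aff e (cc (PowerSeries.C 1)) (cc b) u = u := hu
  rw [cc_C, aff_apply e one_ne_zero, Equiv.symm_apply_eq, one_mul] at h3
  have h4 : cc b = 0 := by simpa using h3
  apply h1
  ext x
  show aff e (cc (PowerSeries.C 1)) (cc b) x = x
  rw [cc_C, aff_apply e one_ne_zero, h4]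
  simp

variable [Fintype X] [Nonempty X]

lemma tor_a1 : (torFam e).G 1 = (affFam e).G 1 := by
  ext g
  constructor
  · rintro ⟨a, b, ha, rfl⟩
    exact ⟨PowerSeries.C a, b, by rw [cc_C]; exact ha, rfl⟩
  · rintro ⟨a, b, ha, rfl⟩
    refine ⟨cc a, b, ha, ?_⟩
    apply Wr.ext
    · show aff e (cc a) (cc b) = aff e (cc (PowerSeries.C (cc a))) (cc b)
      rw [cc_C]
    · funext x
      rfl

end tors

section growth

variable {X : Type} [Fintype X] [Nonempty X]

lemma a_ge (hX : 2 ≤ Fintype.card X) : ∀ (n : ℕ) (F : Fam X), 2 ^ n ≤ F.a n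
  | 0, F => a_pos F 0
  | n + 1, F => by
    obtain ⟨u⟩ := (inferInstance : Nonempty X)
    rw [a_eq F n u, pow_succ]
    have h1 := a_ge hX n (F.sec u)
    have h2 : 1 ≤ cnt (F.G (n + 1)) (fun g => Wr.s g u = u ∧ Wr.f g u = 1) :=
      cnt_one_pos _ _ ⟨rfl, rfl⟩
    calc 2 ^ n * 2 = 2 * (1 * 2 ^ n) := by ring
      _ ≤ _ := Nat.mul_le_mul hX (Nat.mul_le_mul h2 h1)

lemma a_tendsto (hX : 2 ≤ Fintype.card X) (F : Fam X) :
    Tendsto (fun n => (F.a (n + 1) : ℝ)) atTop atTop := by
  apply tendsto_natCast_atTop_atTop.comp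
  apply tendsto_atTop_mono (f := fun n => n) _ tendsto_id
  intro n
  have h2 : n < 2 ^ n := Nat.lt_two_pow_self
  have h3 : 2 ^ n ≤ 2 ^ (n + 1) := Nat.pow_le_pow_right (by omega) (by omega)
  have := a_ge hX (n + 1) F
  show n ≤ F.a (n + 1)
  omega

end growth

section

variable {X : Type} {F : Type} [Field F] (e : X ≃ F) [Fintype X] [Nonempty X]

/-- the threshold is a limit -/
lemma tor_lim (d : ℕ) (hd : d = Fintype.card X) (hd3 : 3 ≤ d) :
    Tendsto (torFam e).P atTop (nhds (thr d)) := by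
  have hgood := aff_good e d hd (by omega)
  have h0 : ((d : ℤ) - 2) * (torFam e).a 1 ≤ ((d : ℤ) - 1) * (torFam e).fx 1 := by
    have h1 : (torFam e).a 1 = (affFam e).a 1 := by unfold Fam.a; rw [tor_a1]
    have h2 : (torFam e).fx 1 = (affFam e).fx 1 := by unfold Fam.fx; rw [tor_a1]
    rw [h1, h2, above_iff (affFam e) d hd3 1]
    have h3 := (good_iff (affFam e) d (by omega)).1 hgood 1
    refine le_trans ?_ h3
    unfold thr bd
    have hdR : (3 : ℝ) ≤ d := by exact_mod_cast hd3
    rw [div_le_div_iff₀ (by linarith) (by nlinarith)]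
    nlinarith
  have hP : ∀ n, (torFam e).P (n + 1) = thr d + 1 / (torFam e).a (n + 1) := by
    intro n
    have h1 := middle (torFam e) d hd hd3 h0 n
    have h2 : (torFam e).fx (n + 1) =
        cnt ((torFam e).G (n + 1)) (fun g => Wr.s g ≠ 1 ∧ ∃ u, Wr.s g u = u) + 1 := by
      unfold Fam.fx
      rw [cnt_split ((torFam e).G (n + 1)) (HasFix (n + 1)) (fun g => Wr.s g = 1)]
      have h3 : cnt ((torFam e).G (n + 1)) (fun g => HasFix (n + 1) g ∧ Wr.s g = 1) = 1 := by
        unfold cnt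
        rw [Finset.card_eq_one]
        refine ⟨1, ?_⟩
        ext g
        simp only [mem_filter, mem_univ, true_and, mem_singleton]
        constructor
        · rintro ⟨hg, h, h'⟩; exact tor_triv e n g hg h' h
        · rintro rfl; exact ⟨Subgroup.one_mem _, hasFix_one (n + 1), rfl⟩
      have h4 : cnt ((torFam e).G (n + 1)) (fun g => HasFix (n + 1) g ∧ ¬ Wr.s g = 1) =
          cnt ((torFam e).G (n + 1)) (fun g => Wr.s g ≠ 1 ∧ ∃ u, Wr.s g u = u) := by
        apply cnt_congr
        intro g hg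
        constructor
        · rintro ⟨⟨u, hu, _⟩, h⟩; exact ⟨h, u, hu⟩
        · rintro ⟨h, h'⟩; exact ⟨tor_some e n g hg h h', h⟩
      rw [h3, h4, add_comm]
    have hdR : (3 : ℝ) ≤ d := by exact_mod_cast hd3
    have h5 : (0 : ℝ) < (torFam e).a (n + 1) := by exact_mod_cast a_pos (torFam e) (n + 1)
    have h6 : ((d : ℝ) - 1) * (cnt ((torFam e).G (n + 1))
        (fun g => Wr.s g ≠ 1 ∧ ∃ u, Wr.s g u = u) : ℝ) = ((d : ℝ) - 2) * (torFam e).a (n + 1) := by
      exact_mod_cast h1
    unfold Fam.P thr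
    rw [h2]
    push_cast
    have h7 : (d : ℝ) - 1 ≠ 0 := by linarith
    rw [div_add_div _ _ h7 h5.ne', div_eq_div_iff h5.ne' (mul_ne_zero h7 h5.ne')]
    linear_combination ((torFam e).a (n + 1) : ℝ) * h6
  rw [← tendsto_add_atTop_iff_nat 1]
  have h1 := a_tendsto (by omega) (torFam e)
  have h2 := (tendsto_const_nhds (x := (1 : ℝ)) (f := atTop)).div_atTop h1
  have h3 := (tendsto_const_nhds (x := thr d) (f := atTop)).add h2
  rw [add_zero] at h3
  exact h3.congr (fun n => (hP n).symm)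

end

end V1188.FP
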